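import Mathlib
import Pool.Agent.Lib.MP_22c8c7_co.AllEven

/-!
# MP_22c8c7_co: `R(C_n; 3) ≤ 4 n - 3` for every even `n ≥ 10`

For every even `n ≥ 10` and `N ≥ min (4 n - 3) (3 n + 37)`, every 3-colouring of the edges of `K_N`
contains a monochromatic cycle of length exactly `n`. In particular this holds for `N = 4 n - 3`, the
case of Q1. (For `n ≤ 40` the minimum is `4 n - 3`.) The proof is by density: a colour class with a
third of the edges of `K_N` contains `C_n`.
-/

set_option autoImplicit false

namespace Pool.Agent.Results.MP_22c8c7_co.AllEvenCycles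

theorem result :
    ∀ n : ℕ, 10 ≤ n → Even n → ∀ N : ℕ, min (4 * n - 3) (3 * n + 37) ≤ N →
      ∀ c : Fin N → Fin N → Fin 3, (∀ a b : Fin N, c a b = c b a) →
      ∃ k : Fin 3, ∃ f : Fin n → Fin N, Function.Injective f ∧
        ∀ i j : Fin n, j.val = (i.val + 1) % n → c (f i) (f j) = k :=
  fun n hn hne N hN c hc => Pool.Agent.Lib.MP_22c8c7_co.ramsey_even n hn hne N hN c hc

end Pool.Agent.Results.MP_22c8c7_co.AllEvenCycles
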