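import Mathlib
import Pool.Agent.Lib.MP_22c8c7_co.Odd.All

/-!
# MP_22c8c7_co: `R(C_n; 3) ≤ 4 n - 3` for every odd `n ≥ 10^46`

For every odd `n ≥ 10^46` and every `N ≥ 4 n - 3`, every 3-colouring of the edges of `K_N` contains a
monochromatic cycle of length exactly `n`. The proof does not use the regularity lemma: a partition
into classes without sparse cuts, a weighted form of the theorem of Erdos and Gallai for the classes
that are not bipartite, a counting inequality for the three colours and an exact analysis of the
extremal colourings.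
-/

set_option autoImplicit false

namespace Pool.Agent.Results.MP_22c8c7_co.LargeOddCycles

theorem result :
    ∀ n : ℕ, n % 2 = 1 → 10 ^ 46 ≤ n → ∀ N : ℕ, 4 * n - 3 ≤ N →
      ∀ c : Fin N → Fin N → Fin 3, (∀ a b : Fin N, c a b = c b a) →
      ∃ k : Fin 3, ∃ f : Fin n → Fin N, Function.Injective f ∧
        ∀ i j : Fin n, j.val = (i.val + 1) % n → c (f i) (f j) = k :=
  fun n hodd hn N hN c hc =>
    Pool.Agent.Lib.MP_22c8c7_co.Odd.main_all n hodd hn N (by omega) c hc

end Pool.Agent.Results.MP_22c8c7_co.LargeOddCycles
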